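import Pool.Agent.helper66.JS.Defs2

/-!
# Module U2: runs of a token machine give runs of its net
-/

set_option autoImplicit false
set_option linter.unusedSimpArgs false
set_option linter.unusedVariables false

namespace Pool.Agent.helper66.JS

namespace U2

theorem fires_append {rule : ℕ → Rule} {m m' m'' : ℕ → ℕ} {l l' : List ℕ}
    (h : Fires rule m l m') (h' : Fires rule m' l' m'') : Fires rule m (l ++ l') m'' := by
  induction h with
  | nil m => exact h'
  | cons m i is m1 hE hF ih => exact .cons m i _ _ hE (ih h')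

theorem fires_one {rule : ℕ → Rule} {m : ℕ → ℕ} {i : ℕ} (h : (rule i).En m) :
    Fires rule m [i] ((rule i).fire m) := .cons _ _ _ _ h (.nil _)

variable (T : Tok)

/-- marking of a configuration -/
def mk (d : Bool) (C : ℕ × (ℕ → ℕ)) : ℕ → ℕ := fun s =>
  if s = 0 then (if d then 0 else 1) else if s = 1 then (if d then 1 else 0)
  else if s < 2 + T.ns then (if s = 2 + C.1 then 1 else 0) else C.2 (s - (2 + T.ns))

variable {T}

theorem rule_even (c0 : ℕ → ℕ) (N : ℕ) {i : ℕ} (hi : i < T.r) : (T.net c0 N).rule (2 * i) =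
    ⟨0, 2 + T.rp i, 2 + T.ns + T.rx i, 0, 2 + T.rq i, 2 + T.ns + T.ry i,
      2 + T.ns + T.rl i⟩ := by
  have h1 : 2 * i ≠ 2 * T.r := by omega
  have h2 : 2 * i % 2 = 0 := by omega
  have h3 : 2 * i / 2 = i := by omega
  simp only [Tok.net, h1, h2, h3, if_true, if_false]

theorem rule_odd (c0 : ℕ → ℕ) (N : ℕ) {i : ℕ} (hi : i < T.r) : (T.net c0 N).rule (2 * i + 1) =
    ⟨1, 2 + T.rq i, 2 + T.ns + T.ry i, 1, 2 + T.rp i, 2 + T.ns + T.rx i,
      2 + T.ns + T.rl i⟩ := by
  have h1 : 2 * i + 1 ≠ 2 * T.r := by omega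
  have h2 : ¬ (2 * i + 1) % 2 = 0 := by omega
  have h3 : (2 * i + 1) / 2 = i := by omega
  simp only [Tok.net, h1, h2, h3, if_false]

theorem rule_turn (c0 : ℕ → ℕ) (N : ℕ) : (T.net c0 N).rule (2 * T.r) =
    ⟨0, 2 + T.acc, 2 + T.ns + T.e, 1, 2 + T.acc, 2 + T.ns + T.e, 2 + T.ns + T.f⟩ := by
  simp only [Tok.net, if_true]

theorem fwd (hT : T.Ok) (c0 : ℕ → ℕ) (N : ℕ) {i : ℕ} {C C' : ℕ × (ℕ → ℕ)} (h : T.Step i C C') :
    ((T.net c0 N).rule (2 * i)).En (mk T false C) ∧
      ((T.net c0 N).rule (2 * i)).fire (mk T false C) = mk T false C' := by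
  obtain ⟨hi, h1, h2, h3, h4, h5⟩ := h
  obtain ⟨p, c⟩ := C
  obtain ⟨q, c'⟩ := C'
  simp only at h1 h2 h3 h4 h5
  subst h1 h4 h5
  rw [rule_even c0 N hi]
  have hp := hT.rp i hi
  have hq := hT.rq i hi
  constructor
  · refine ⟨?_, ?_, ?_, ?_⟩
    · simp [mk]
    · have : 2 + T.rp i < 2 + T.ns := by omega
      have h0 : ¬ 2 + T.rp i = 0 := by omega
      have h1 : ¬ 2 + T.rp i = 1 := by omega
      simp [mk, this, h0, h1]
    · have : ¬ 2 + T.ns + T.rx i < 2 + T.ns := by omega
      have h0 : ¬ 2 + T.ns + T.rx i = 0 := by omega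
      have h1 : ¬ 2 + T.ns + T.rx i = 1 := by omega
      have h4 : 2 + T.ns + T.rx i - (2 + T.ns) = T.rx i := by omega
      simp only [mk, h0, h1, this, h4, if_false]
      exact h2
    · have : ¬ 2 + T.ns + T.rl i < 2 + T.ns := by omega
      have h0 : ¬ 2 + T.ns + T.rl i = 0 := by omega
      have h1 : ¬ 2 + T.ns + T.rl i = 1 := by omega
      have h4 : 2 + T.ns + T.rl i - (2 + T.ns) = T.rl i := by omega
      simp only [mk, h0, h1, this, h4, if_false]
      exact h3
  · funext s
    simp only [Rule.fire, mk, Bool.false_eq_true, if_false]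
    by_cases s0 : s = 0
    · simp [s0]
    by_cases s1 : s = 1
    · subst s1
      have e1 : ¬ (1 = 2 + T.rp i) := by omega
      have e2 : ¬ (1 = 2 + T.ns + T.rx i) := by omega
      have e3 : ¬ (1 = 2 + T.rq i) := by omega
      have e4 : ¬ (1 = 2 + T.ns + T.ry i) := by omega
      simp [e1, e2, e3, e4]
    by_cases s2 : s < 2 + T.ns
    · have e2 : ¬ (s = 2 + T.ns + T.rx i) := by omega
      have e4 : ¬ (s = 2 + T.ns + T.ry i) := by omega
      simp only [s0, s1, s2, e2, e4, if_false, if_true, or_false, false_or]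
      split_ifs <;> omega
    · have e2 : ¬ (s = 2 + T.rp i) := by omega
      have e4 : ¬ (s = 2 + T.rq i) := by omega
      have e5 : s = 2 + T.ns + T.rx i ↔ s - (2 + T.ns) = T.rx i := by omega
      have e6 : s = 2 + T.ns + T.ry i ↔ s - (2 + T.ns) = T.ry i := by omega
      simp only [s0, s1, s2, e2, e4, if_false, or_false, false_or, e5, e6]

theorem bwd (hT : T.Ok) (c0 : ℕ → ℕ) (N : ℕ) {i : ℕ} {C C' : ℕ × (ℕ → ℕ)} (h : T.Step i C C') :
    ((T.net c0 N).rule (2 * i + 1)).En (mk T true C') ∧
      ((T.net c0 N).rule (2 * i + 1)).fire (mk T true C') = mk T true C := by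
  obtain ⟨hi, h1, h2, h3, h4, h5⟩ := h
  obtain ⟨p, c⟩ := C
  obtain ⟨q, c'⟩ := C'
  simp only at h1 h2 h3 h4 h5
  subst h1 h4 h5
  rw [rule_odd c0 N hi]
  have hp := hT.rp i hi
  have hq := hT.rq i hi
  obtain ⟨-, hl1, hl2⟩ := hT.rl i hi
  constructor
  · refine ⟨?_, ?_, ?_, ?_⟩
    · simp [mk]
    · have : 2 + T.rq i < 2 + T.ns := by omega
      have h0 : ¬ 2 + T.rq i = 0 := by omega
      have h1 : ¬ 2 + T.rq i = 1 := by omega
      simp [mk, this, h0, h1]
    · have : ¬ 2 + T.ns + T.ry i < 2 + T.ns := by omega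
      have h0 : ¬ 2 + T.ns + T.ry i = 0 := by omega
      have h1 : ¬ 2 + T.ns + T.ry i = 1 := by omega
      have h4 : 2 + T.ns + T.ry i - (2 + T.ns) = T.ry i := by omega
      simp only [mk, h0, h1, this, h4, if_false, if_true]
      omega
    · have : ¬ 2 + T.ns + T.rl i < 2 + T.ns := by omega
      have h0 : ¬ 2 + T.ns + T.rl i = 0 := by omega
      have h1 : ¬ 2 + T.ns + T.rl i = 1 := by omega
      have h4 : 2 + T.ns + T.rl i - (2 + T.ns) = T.rl i := by omega
      simp only [mk, h0, h1, this, h4, if_false, hl1, hl2]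
      omega
  · funext s
    simp only [Rule.fire, mk, if_true]
    by_cases s0 : s = 0
    · subst s0
      have e1 : ¬ (0 = 2 + T.rp i) := by omega
      have e2 : ¬ (0 = 2 + T.ns + T.rx i) := by omega
      have e3 : ¬ (0 = 2 + T.rq i) := by omega
      have e4 : ¬ (0 = 2 + T.ns + T.ry i) := by omega
      simp [e1, e2, e3, e4]
    by_cases s1 : s = 1
    · simp [s1]
    by_cases s2 : s < 2 + T.ns
    · have e2 : ¬ (s = 2 + T.ns + T.rx i) := by omega
      have e4 : ¬ (s = 2 + T.ns + T.ry i) := by omega
      simp only [s0, s1, s2, e2, e4, if_false, if_true, or_false, false_or]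
      split_ifs <;> omega
    · have e2 : ¬ (s = 2 + T.rp i) := by omega
      have e4 : ¬ (s = 2 + T.rq i) := by omega
      have e5 : s = 2 + T.ns + T.rx i ↔ s - (2 + T.ns) = T.rx i := by omega
      have e6 : s = 2 + T.ns + T.ry i ↔ s - (2 + T.ns) = T.ry i := by omega
      simp only [s0, s1, s2, e2, e4, if_false, or_false, false_or, e5, e6]
      by_cases g : s - (2 + T.ns) = T.rx i
      · rw [g]
        split_ifs <;> omega
      · split_ifs <;> omega

theorem lists (hT : T.Ok) (c0 : ℕ → ℕ) (N : ℕ) {k : ℕ} {C C' : ℕ × (ℕ → ℕ)} (h : T.Run k C C') :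
    ∃ l : List ℕ, l.length = k ∧ (∀ i ∈ l, i < T.r) ∧
      Fires (T.net c0 N).rule (mk T false C) (l.map (2 * ·)) (mk T false C') ∧
      Fires (T.net c0 N).rule (mk T true C') (l.reverse.map (2 * · + 1)) (mk T true C) ∧
      C'.2 T.e = C.2 T.e ∧ C'.2 T.f = C.2 T.f := by
  induction h with
  | refl C => exact ⟨[], rfl, by simp, .nil _, .nil _, rfl, rfl⟩
  | step n i C C' C'' h h' ih =>
    obtain ⟨l, hl, h1, h2, h3, h4, h5⟩ := ih
    obtain ⟨f1, f2⟩ := fwd hT c0 N h
    obtain ⟨b1, b2⟩ := bwd hT c0 N h
    obtain ⟨hi, g1, g2, g3, g4, g5⟩ := h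
    refine ⟨i :: l, by simp [hl], ?_, ?_, ?_, ?_, ?_⟩
    · intro j hj
      rcases List.mem_cons.1 hj with rfl | hj
      · exact hi
      · exact h1 j hj
    · rw [List.map_cons]
      exact .cons _ _ _ _ f1 (f2 ▸ h2)
    · rw [List.reverse_cons, List.map_append]
      refine fires_append h3 ?_
      have := fires_one b1
      rw [b2] at this
      exact this
    · rw [h4, g5]
      have := hT.xe i hi
      by_cases hx : T.rx i = T.e
      · have hy := this.1 hx
        rw [hx] at g2
        simp only [hx, hy, if_true]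
        omega
      · have hy : ¬ T.ry i = T.e := fun hy => hx (this.2 hy)
        simp only [Ne.symm hx, Ne.symm hy, if_false, Ne.eq_def]
        have e1 : ¬ T.e = T.rx i := fun h => hx h.symm
        have e2 : ¬ T.e = T.ry i := fun h => hy h.symm
        simp [e1, e2]
    · rw [h5, g5]
      have e1 : ¬ T.f = T.rx i := fun h => (hT.rx i hi).2 h.symm
      have e2 : ¬ T.f = T.ry i := fun h => (hT.ry i hi).2 h.symm
      simp [e1, e2]

theorem turn (c0 : ℕ → ℕ) (N : ℕ) (hT : T.Ok) (C : ℕ → ℕ) (he : 0 < C T.e) (hf : C T.f = 0) :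
    ((T.net c0 N).rule (2 * T.r)).En (mk T false (T.acc, C)) ∧
      ((T.net c0 N).rule (2 * T.r)).fire (mk T false (T.acc, C)) = mk T true (T.acc, C) := by
  rw [rule_turn c0 N]
  have ha := hT.acc
  constructor
  · refine ⟨?_, ?_, ?_, ?_⟩
    · simp [mk]
    · have : 2 + T.acc < 2 + T.ns := by omega
      have h0 : ¬ 2 + T.acc = 0 := by omega
      have h1 : ¬ 2 + T.acc = 1 := by omega
      simp [mk, this, h0, h1]
    · have : ¬ 2 + T.ns + T.e < 2 + T.ns := by omega
      have h0 : ¬ 2 + T.ns + T.e = 0 := by omega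
      have h1 : ¬ 2 + T.ns + T.e = 1 := by omega
      have h4 : 2 + T.ns + T.e - (2 + T.ns) = T.e := by omega
      simp only [mk, h0, h1, this, h4, if_false]
      exact he
    · have : ¬ 2 + T.ns + T.f < 2 + T.ns := by omega
      have h0 : ¬ 2 + T.ns + T.f = 0 := by omega
      have h1 : ¬ 2 + T.ns + T.f = 1 := by omega
      have h4 : 2 + T.ns + T.f - (2 + T.ns) = T.f := by omega
      simp only [mk, h0, h1, this, h4, if_false]
      exact hf
  · funext s
    simp only [Rule.fire, mk, Bool.false_eq_true, if_false, if_true]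
    by_cases s0 : s = 0
    · subst s0
      have e1 : ¬ (0 = 2 + T.acc) := by omega
      have e2 : ¬ (0 = 2 + T.ns + T.e) := by omega
      simp [e1, e2]
    by_cases s1 : s = 1
    · subst s1
      have e1 : ¬ (1 = 2 + T.acc) := by omega
      have e2 : ¬ (1 = 2 + T.ns + T.e) := by omega
      simp [e1, e2]
    by_cases s2 : s < 2 + T.ns
    · have e2 : ¬ (s = 2 + T.ns + T.e) := by omega
      simp only [s0, s1, s2, e2, if_false, if_true, or_false, false_or]
      split_ifs <;> omega
    · have e2 : ¬ (s = 2 + T.acc) := by omega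
      have e5 : s = 2 + T.ns + T.e ↔ s - (2 + T.ns) = T.e := by omega
      simp only [s0, s1, s2, e2, if_false, false_or, e5]
      by_cases g : s - (2 + T.ns) = T.e
      · rw [g]
        simp only [if_true]
        omega
      · simp [g]

/-- marking of a dummy zone -/
def dm (T : Tok) (i : ℕ) : ℕ → ℕ := fun s =>
  if s = 0 ∨ s = 1 ∨ s = 2 + T.rp i ∨ s = 2 + T.ns + T.rx i then 1 else 0

theorem dummy (hT : T.Ok) (c0 : ℕ → ℕ) (N : ℕ) {i : ℕ} (hi : i < T.r) :
    Fires (T.net c0 N).rule (dm T i) [2 * i, 2 * i + 1] (dm T i) := by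
  have hp := hT.rp i hi
  have hq := hT.rq i hi
  obtain ⟨-, hl1, hl2⟩ := hT.rl i hi
  have h1 : ((T.net c0 N).rule (2 * i)).En (dm T i) := by
    rw [rule_even c0 N hi]
    refine ⟨by simp [dm], by simp [dm], by simp [dm], ?_⟩
    have a1 : ¬ 2 + T.ns + T.rl i = 0 := by omega
    have a2 : ¬ 2 + T.ns + T.rl i = 1 := by omega
    have a3 : ¬ 2 + T.ns + T.rl i = 2 + T.rp i := by omega
    have a4 : ¬ 2 + T.ns + T.rl i = 2 + T.ns + T.rx i := by omega
    simp only [dm, a1, a2, a3, a4, or_false, if_false]
  have h2 : ((T.net c0 N).rule (2 * i + 1)).En (((T.net c0 N).rule (2 * i)).fire (dm T i)) := by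
    rw [rule_even c0 N hi, rule_odd c0 N hi]
    refine ⟨?_, ?_, ?_, ?_⟩
    · have b1 : ¬ (1 = 2 + T.rp i) := by omega
      have b2 : ¬ (1 = 2 + T.ns + T.rx i) := by omega
      simp [dm, Rule.fire, b1, b2]
    · simp [Rule.fire]
    · simp [Rule.fire]
    · have a1 : ¬ 2 + T.ns + T.rl i = 0 := by omega
      have a2 : ¬ 2 + T.ns + T.rl i = 1 := by omega
      have a3 : ¬ 2 + T.ns + T.rl i = 2 + T.rp i := by omega
      have a4 : ¬ 2 + T.ns + T.rl i = 2 + T.ns + T.rx i := by omega
      have a5 : ¬ 2 + T.ns + T.rl i = 2 + T.rq i := by omega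
      have a6 : ¬ 2 + T.ns + T.rl i = 2 + T.ns + T.ry i := by omega
      simp only [dm, Rule.fire, a1, a2, a3, a4, a5, a6, or_false, if_false]
  have h3 : ((T.net c0 N).rule (2 * i + 1)).fire (((T.net c0 N).rule (2 * i)).fire (dm T i)) =
      dm T i := by
    rw [rule_even c0 N hi, rule_odd c0 N hi]
    funext s
    simp only [dm, Rule.fire]
    by_cases s0 : s = 0
    · subst s0
      have e1 : ¬ (0 = 2 + T.rp i) := by omega
      have e2 : ¬ (0 = 2 + T.ns + T.rx i) := by omega
      have e3 : ¬ (0 = 2 + T.rq i) := by omega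
      have e4 : ¬ (0 = 2 + T.ns + T.ry i) := by omega
      simp [e1, e2, e3, e4]
    by_cases s1 : s = 1
    · subst s1
      have e1 : ¬ (1 = 2 + T.rp i) := by omega
      have e2 : ¬ (1 = 2 + T.ns + T.rx i) := by omega
      have e3 : ¬ (1 = 2 + T.rq i) := by omega
      have e4 : ¬ (1 = 2 + T.ns + T.ry i) := by omega
      simp [e1, e2, e3, e4]
    simp only [s0, s1, false_or]
    by_cases s2 : s < 2 + T.ns
    · have e2 : ¬ (s = 2 + T.ns + T.rx i) := by omega
      have e4 : ¬ (s = 2 + T.ns + T.ry i) := by omega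
      simp only [e2, e4, or_false]
      split_ifs <;> omega
    · have e2 : ¬ (s = 2 + T.rp i) := by omega
      have e4 : ¬ (s = 2 + T.rq i) := by omega
      simp only [e2, e4, false_or]
      split_ifs <;> omega
  refine .cons _ _ _ _ h1 (.cons _ _ _ _ h2 ?_)
  rw [h3]
  exact .nil _

theorem dummies (hT : T.Ok) (c0 : ℕ → ℕ) (N : ℕ) {i : ℕ} (hi : i < T.r) (n : ℕ) :
    Fires (T.net c0 N).rule (dm T i) (List.replicate n [2 * i, 2 * i + 1]).flatten (dm T i) := by
  induction n with
  | zero => exact .nil _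
  | succ n ih =>
    rw [List.replicate_succ, List.flatten_cons]
    exact fires_append (dummy hT c0 N hi) ih

theorem count_rep (i j n : ℕ) : (List.replicate n [2 * i, 2 * i + 1]).flatten.count j =
    n * ((if 2 * i = j then 1 else 0) + (if 2 * i + 1 = j then 1 else 0)) := by
  induction n with
  | zero => simp
  | succ n ih =>
    rw [List.replicate_succ, List.flatten_cons, List.count_append, ih]
    simp only [List.count_cons, List.count_nil, beq_iff_eq]
    split_ifs <;> ring

theorem count_map_two (l : List ℕ) (i : ℕ) : (l.map (2 * ·)).count (2 * i) = l.count i :=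
  List.count_map_of_injective l (2 * ·) (fun a b h => by simpa using h) i

theorem count_map_two' (l : List ℕ) (i : ℕ) : (l.map (2 * · + 1)).count (2 * i + 1) = l.count i :=
  List.count_map_of_injective l (2 * · + 1) (fun a b h => by simpa using h) i

end U2

open U2 in
theorem tok_yes (T : Tok) (hT : T.Ok) (c0 : ℕ → ℕ) (N : ℕ) (he : 0 < c0 T.e) (hf : c0 T.f = 0)
    (k : ℕ) (C : ℕ → ℕ) (hk : k ≤ N) (h : T.Run k (T.p0, c0) (T.acc, C)) :
    ∃ rs, (T.net c0 N).IsRuns rs := by
  obtain ⟨l, hl, h1, h2, h3, h4, h5⟩ := lists hT c0 N h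
  simp only at h4 h5
  obtain ⟨t1, t2⟩ := turn c0 N hT C (by rw [h4]; exact he) (by rw [h5]; exact hf)
  have hr : (T.net c0 N).r = 2 * T.r + 1 := rfl
  have hz : (T.net c0 N).Zn = T.r + 1 := rfl
  refine ⟨fun z => if z = 0 then l.map (2 * ·) ++ ([2 * T.r] ++ l.reverse.map (2 * · + 1))
    else (List.replicate (N - l.count (z - 1)) [2 * (z - 1), 2 * (z - 1) + 1]).flatten, ?_, ?_, ?_⟩
  · intro z hz i hi
    rw [hr]
    by_cases z0 : z = 0
    · simp only [z0, if_true, List.mem_append, List.mem_map, List.mem_singleton,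
        List.mem_reverse] at hi
      rcases hi with ⟨j, hj, rfl⟩ | rfl | ⟨j, hj, rfl⟩
      · have := h1 j hj; omega
      · omega
      · have := h1 j hj; omega
    · simp only [z0, if_false, List.mem_flatten, List.mem_replicate] at hi
      obtain ⟨a, ⟨-, rfl⟩, ha⟩ := hi
      have : z < T.r + 1 := hz
      simp only [List.mem_cons, List.not_mem_nil, or_false] at ha
      omega
  · intro z hz
    by_cases z0 : z = 0
    · subst z0
      simp only [if_true]
      refine ⟨mk T true (T.p0, c0), ?_, ?_⟩
      · have e : (T.net c0 N).c0 0 = mk T false (T.p0, c0) := by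
          funext s
          simp [Tok.net, mk]
        rw [e]
        have f2 := fires_one t1
        rw [t2] at f2
        exact fires_append h2 (fires_append f2 h3)
      · intro s _
        simp [Tok.net, mk]
    · simp only [z0, if_false]
      have hz' : z < T.r + 1 := hz
      have e : (T.net c0 N).c0 z = dm T (z - 1) := by
        funext s
        simp [Tok.net, dm, z0]
      refine ⟨dm T (z - 1), ?_, ?_⟩
      · rw [e]
        exact dummies hT c0 N (by omega) _
      · intro s _
        simp [Tok.net, dm, z0]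
  · intro i hi
    rw [hr] at hi
    rw [hz, Finset.sum_range_succ']
    simp only [Nat.add_one_ne_zero, if_false, if_true, Nat.add_sub_cancel]
    have hc : ∀ j, l.count j ≤ N := fun j => (List.count_le_length).trans (by omega)
    rcases Nat.lt_or_ge i (2 * T.r) with hlt | hge
    · have hm : (T.net c0 N).mult i = N := by
        simp only [Tok.net]
        rw [if_neg (by omega)]
      rw [hm, List.count_append, List.count_append]
      rcases Nat.even_or_odd' i with ⟨j, rfl | rfl⟩
      · have hj : j < T.r := by omega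
        have e1 : ([2 * T.r] : List ℕ).count (2 * j) = 0 := by
          rw [List.count_eq_zero]; simp; omega
        have e2 : (l.reverse.map (2 * · + 1)).count (2 * j) = 0 := by
          rw [List.count_eq_zero]
          simp only [List.mem_map, not_exists, not_and]
          intro a _; omega
        rw [count_map_two, e1, e2]
        have e3 : ∀ z ∈ Finset.range T.r, (List.replicate (N - l.count z) [2 * z, 2 * z + 1]).flatten.count
            (2 * j) = if z = j then N - l.count j else 0 := by
          intro z _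
          rw [count_rep]
          have : ¬ (2 * z + 1 = 2 * j) := by omega
          by_cases hzj : z = j
          · subst hzj; simp
          · have h' : ¬ (2 * z = 2 * j) := by omega
            simp [this, h', hzj]
        rw [Finset.sum_congr rfl e3, Finset.sum_ite_eq' (Finset.range T.r) j]
        simp only [Finset.mem_range, hj, if_true]
        have := hc j
        omega
      · have hj : j < T.r := by omega
        have e1 : ([2 * T.r] : List ℕ).count (2 * j + 1) = 0 := by
          rw [List.count_eq_zero]; simp; omega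
        have e2 : (l.map (2 * ·)).count (2 * j + 1) = 0 := by
          rw [List.count_eq_zero]
          simp only [List.mem_map, not_exists, not_and]
          intro a _; omega
        rw [count_map_two', e1, e2]
        have e3 : ∀ z ∈ Finset.range T.r, (List.replicate (N - l.count z) [2 * z, 2 * z + 1]).flatten.count
            (2 * j + 1) = if z = j then N - l.count j else 0 := by
          intro z _
          rw [count_rep]
          have : ¬ (2 * z = 2 * j + 1) := by omega
          by_cases hzj : z = j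
          · subst hzj; simp
          · have h' : ¬ (2 * z + 1 = 2 * j + 1) := by omega
            simp [this, h', hzj]
        rw [Finset.sum_congr rfl e3, Finset.sum_ite_eq' (Finset.range T.r) j]
        simp only [Finset.mem_range, hj, if_true, List.count_reverse]
        have := hc j
        omega
    · have hi' : i = 2 * T.r := by omega
      subst hi'
      have hm : (T.net c0 N).mult (2 * T.r) = 1 := by simp [Tok.net]
      rw [hm, List.count_append, List.count_append]
      have e1 : ([2 * T.r] : List ℕ).count (2 * T.r) = 1 := by simp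
      have e2 : (l.map (2 * ·)).count (2 * T.r) = 0 := by
        rw [List.count_eq_zero]
        simp only [List.mem_map, not_exists, not_and]
        intro a ha
        have := h1 a ha; omega
      have e3 : (l.reverse.map (2 * · + 1)).count (2 * T.r) = 0 := by
        rw [List.count_eq_zero]
        simp only [List.mem_map, not_exists, not_and]
        intro a ha; omega
      rw [e1, e2, e3]
      have e4 : ∀ z ∈ Finset.range T.r, (List.replicate (N - l.count z) [2 * z, 2 * z + 1]).flatten.count
            (2 * T.r) = 0 := by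
        intro z hz
        rw [count_rep]
        have := Finset.mem_range.1 hz
        have h' : ¬ (2 * z = 2 * T.r) := by omega
        have h'' : ¬ (2 * z + 1 = 2 * T.r) := by omega
        simp [h', h'']
      rw [Finset.sum_congr rfl e4]
      simp

end Pool.Agent.helper66.JS
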