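import Pool.Agent.helper66.JS.Defs2
import Pool.Agent.helper14.JS.V0

/-!
# Module V2: completeness of the token machine
-/

set_option autoImplicit false
set_option linter.unusedSimpArgs false
set_option linter.unusedVariables false

namespace Pool.Agent.helper66.JS

namespace V2

/-! ## Moves of tokens -/

/-- move `n` tokens from `x` to `y` -/
def mv (c : ℕ → ℕ) (x y n : ℕ) : ℕ → ℕ := fun s =>
  if s = x then c s - n else if s = y then c s + n else c s

theorem mv_zero (c : ℕ → ℕ) (x y : ℕ) : mv c x y 0 = c := by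
  funext s; simp [mv]

theorem mv_mv (c : ℕ → ℕ) {x y a b : ℕ} (hxy : x ≠ y) : mv (mv c x y a) x y b = mv c x y (a + b) := by
  funext s
  simp only [mv]
  split_ifs <;> omega

theorem mv_x (c : ℕ → ℕ) (x y n : ℕ) : mv c x y n x = c x - n := by simp [mv]

theorem mv_y (c : ℕ → ℕ) {x y : ℕ} (n : ℕ) (h : x ≠ y) : mv c x y n y = c y + n := by
  simp [mv, h.symm]

theorem mv_ne (c : ℕ → ℕ) {x y s : ℕ} (n : ℕ) (h : s ≠ x) (h' : s ≠ y) : mv c x y n s = c s := by
  simp [mv, h, h']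

theorem run_trans {T : Tok} {m n : ℕ} {C C' C'' : ℕ × (ℕ → ℕ)} (h : T.Run m C C')
    (h' : T.Run n C' C'') : T.Run (m + n) C C'' := by
  induction h with
  | refl C => simpa using h'
  | step m i C C1 C2 h0 h1 ih =>
    have := ih h'
    have e : m + 1 + n = (m + n) + 1 := by omega
    rw [e]
    exact .step _ i _ _ _ h0 this

theorem run_one {T : Tok} {i : ℕ} {C C' : ℕ × (ℕ → ℕ)} (h : T.Step i C C') : T.Run 1 C C' :=
  .step 0 i _ _ _ h (.refl _)

section

variable {δ : NTM} {B Q k g0 : ℕ}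

theorem step_mv {i p q x y l : ℕ} (hi : i < 32 * B * B * Q * k * (δ.length + 1))
    (hr : ruleV δ B Q k i = (p, q, x, y, l)) (hxy : x ≠ y) {c : ℕ → ℕ} (hx : 0 < c x)
    (hl : c l = 0) : (tokV δ B Q k g0).Run 1 (p, c) (q, mv c x y 1) := by
  refine run_one (i := i) ⟨hi, ?_, ?_, ?_, ?_, ?_⟩
  · simp [tokV, hr]
  · simpa [tokV, hr] using hx
  · simpa [tokV, hr] using hl
  · simp [tokV, hr]
  · funext s
    simp only [tokV, hr, mv]
    split_ifs <;> omega

theorem step_e {i p q l : ℕ} (hi : i < 32 * B * B * Q * k * (δ.length + 1))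
    (hr : ruleV δ B Q k i = (p, q, 2 * k + 2, 2 * k + 2, l)) {c : ℕ → ℕ} (hx : 0 < c (2 * k + 2))
    (hl : c l = 0) : (tokV δ B Q k g0).Run 1 (p, c) (q, c) := by
  refine run_one (i := i) ⟨hi, ?_, ?_, ?_, ?_, ?_⟩
  · simp [tokV, hr]
  · simpa [tokV, hr] using hx
  · simpa [tokV, hr] using hl
  · simp [tokV, hr]
  · funext s
    simp only [tokV, hr]
    split_ifs with h
    · subst h; omega
    · omega

/-- a loop -/
theorem loop_mv {i p x y : ℕ} (hi : i < 32 * B * B * Q * k * (δ.length + 1))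
    (hr : ruleV δ B Q k i = (p, p, x, y, 2 * k + 3)) (hxy : x ≠ y) (hx : x ≠ 2 * k + 3)
    (hy : y ≠ 2 * k + 3) (n : ℕ) : ∀ {c : ℕ → ℕ}, n ≤ c x → c (2 * k + 3) = 0 →
      (tokV δ B Q k g0).Run n (p, c) (p, mv c x y n) := by
  induction n with
  | zero =>
    intro c _ _
    rw [mv_zero]
    exact .refl _
  | succ n ih =>
    intro c h1 h2
    have s1 := step_mv (g0 := g0) hi hr hxy (c := c) (by omega) h2
    have s2 := ih (c := mv c x y 1) (by rw [mv_x]; omega)
      (by rw [mv_ne _ _ hx.symm hy.symm]; exact h2)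
    rw [mv_mv _ hxy] at s2
    have := run_trans s1 s2
    rw [Nat.add_comm 1 n] at this
    exact this

/-! ## Indices of rules -/

def ix (B Q k ty d j q g h t : ℕ) : ℕ := ty + 16 * (d + 2 * (g + B * (h + B * (q + Q * (j + k * t)))))

theorem dec {ty d j q g h t : ℕ} (hty : ty < 16) (hd : d < 2) (hg : g < B) (hh : h < B)
    (hq : q < Q) (hj : j < k) :
    ix B Q k ty d j q g h t % 16 = ty ∧ ix B Q k ty d j q g h t / 16 % 2 = d ∧
    ix B Q k ty d j q g h t / 32 % B = g ∧ ix B Q k ty d j q g h t / (32 * B) % B = h ∧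
    ix B Q k ty d j q g h t / (32 * B * B) % Q = q ∧
    ix B Q k ty d j q g h t / (32 * B * B * Q) % k = j ∧
    ix B Q k ty d j q g h t / (32 * B * B * Q * k) = t := by
  have hB : 0 < B := by omega
  have hQ : 0 < Q := by omega
  have hk : 0 < k := by omega
  have e1 : ix B Q k ty d j q g h t % 16 = ty := by unfold ix; omega
  have e2 : ix B Q k ty d j q g h t / 16 = d + 2 * (g + B * (h + B * (q + Q * (j + k * t)))) := by
    unfold ix; omega
  have e3 : ix B Q k ty d j q g h t / 32 = g + B * (h + B * (q + Q * (j + k * t))) := by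
    unfold ix; omega
  have e4 : ix B Q k ty d j q g h t / (32 * B) = h + B * (q + Q * (j + k * t)) := by
    rw [← Nat.div_div_eq_div_mul, e3, Nat.add_mul_div_left _ _ hB, Nat.div_eq_of_lt hg,
      Nat.zero_add]
  have e5 : ix B Q k ty d j q g h t / (32 * B * B) = q + Q * (j + k * t) := by
    rw [← Nat.div_div_eq_div_mul, e4, Nat.add_mul_div_left _ _ hB, Nat.div_eq_of_lt hh,
      Nat.zero_add]
  have e6 : ix B Q k ty d j q g h t / (32 * B * B * Q) = j + k * t := by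
    rw [← Nat.div_div_eq_div_mul, e5, Nat.add_mul_div_left _ _ hQ, Nat.div_eq_of_lt hq,
      Nat.zero_add]
  have e7 : ix B Q k ty d j q g h t / (32 * B * B * Q * k) = t := by
    rw [← Nat.div_div_eq_div_mul, e6, Nat.add_mul_div_left _ _ hk, Nat.div_eq_of_lt hj,
      Nat.zero_add]
  refine ⟨e1, ?_, ?_, ?_, ?_, ?_, e7⟩
  · rw [e2]; omega
  · rw [e3, Nat.add_mul_mod_self_left, Nat.mod_eq_of_lt hg]
  · rw [e4, Nat.add_mul_mod_self_left, Nat.mod_eq_of_lt hh]
  · rw [e5, Nat.add_mul_mod_self_left, Nat.mod_eq_of_lt hq]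
  · rw [e6, Nat.add_mul_mod_self_left, Nat.mod_eq_of_lt hj]

theorem ix_lt {ty d j q g h t m : ℕ} (hty : ty < 16) (hd : d < 2) (hg : g < B) (hh : h < B)
    (hq : q < Q) (hj : j < k) (ht : t ≤ m) :
    ix B Q k ty d j q g h t < 32 * B * B * Q * k * (m + 1) := by
  have h7 := (dec (t := t) hty hd hg hh hq hj).2.2.2.2.2.2
  have hp : 0 < 32 * B * B * Q * k := by
    have : 0 < B := by omega
    have : 0 < Q := by omega
    have : 0 < k := by omega
    positivity
  have := Nat.lt_mul_div_succ (ix B Q k ty d j q g h t) hp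
  rw [h7] at this
  refine this.trans_le (Nat.mul_le_mul_left _ ?_)
  omega

end

section rules

variable {δ : NTM} {B Q k d j q g h : ℕ}

theorem rule0 {t q1 g1 q2 g2 : ℕ} {right : Bool} (ht : δ[t]? = some (q1, g1, q2, g2, right))
    (hB : 0 < B) (hQ : 0 < Q) (hj : j < k) :
    ruleV δ B Q k (ix B Q k 0 0 j 0 0 0 t) =
      (sc B Q 0 0 j q1 (g1 + 1) 0, sc B Q 1 (if right then 0 else 1) j q2 (g2 + 1) 0,
        2 * k + 2, 2 * k + 2, 2 * k + 3) := by
  obtain ⟨e1, e2, e3, e4, e5, e6, e7⟩ := dec (B := B) (Q := Q) (k := k) (ty := 0) (d := 0) (j := j)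
    (q := 0) (g := 0) (h := 0) (t := t) (by omega) (by omega) hB hB hQ hj
  simp only [ruleV, e1, e2, e3, e4, e5, e6, e7, ht]
  simp

theorem rule1 (hd : d < 2) (hg : g < B) (hq : q < Q) (hj : j < k) :
    ruleV δ B Q k (ix B Q k 1 d j q g 0 0) =
      (sc B Q 1 d j q g 0, sc B Q 1 d j q g (B - 1), 2 * j + d, 2 * k, 2 * k + 3) := by
  obtain ⟨e1, e2, e3, e4, e5, e6, e7⟩ := dec (B := B) (Q := Q) (k := k) (ty := 1) (d := d) (j := j)
    (q := q) (g := g) (h := 0) (t := 0) (by omega) hd hg (by omega) hq hj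
  simp only [ruleV, e1, e2, e3, e4, e5, e6, e7]
  simp

theorem rule2 (hd : d < 2) (hg : g < B) (hh : h < B) (hh1 : 1 ≤ h) (hq : q < Q) (hj : j < k) :
    ruleV δ B Q k (ix B Q k 2 d j q g h 0) =
      (sc B Q 1 d j q g h, sc B Q 1 d j q g (h - 1), 2 * k + 1, 2 * k, 2 * k + 3) := by
  obtain ⟨e1, e2, e3, e4, e5, e6, e7⟩ := dec (B := B) (Q := Q) (k := k) (ty := 2) (d := d) (j := j)
    (q := q) (g := g) (h := h) (t := 0) (by omega) hd hg hh hq hj
  simp only [ruleV, e1, e2, e3, e4, e5, e6, e7]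
  simp [hh1]

theorem rule3 (hd : d < 2) (hg : g < B) (hq : q < Q) (hj : j < k) :
    ruleV δ B Q k (ix B Q k 3 d j q g 0 0) =
      (sc B Q 1 d j q g 0, sc B Q 2 d j q g 0, 2 * k + 2, 2 * k + 2, 2 * j + d) := by
  obtain ⟨e1, e2, e3, e4, e5, e6, e7⟩ := dec (B := B) (Q := Q) (k := k) (ty := 3) (d := d) (j := j)
    (q := q) (g := g) (h := 0) (t := 0) (by omega) hd hg (by omega) hq hj
  simp only [ruleV, e1, e2, e3, e4, e5, e6, e7]
  simp

theorem rule4 (hd : d < 2) (hg : g < B) (hq : q < Q) (hj : j < k) :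
    ruleV δ B Q k (ix B Q k 4 d j q g 0 0) =
      (sc B Q 2 d j q g 0, sc B Q 2 d j q g 0, 2 * k, 2 * j + d, 2 * k + 3) := by
  obtain ⟨e1, e2, e3, e4, e5, e6, e7⟩ := dec (B := B) (Q := Q) (k := k) (ty := 4) (d := d) (j := j)
    (q := q) (g := g) (h := 0) (t := 0) (by omega) hd hg (by omega) hq hj
  simp only [ruleV, e1, e2, e3, e4, e5, e6, e7]
  simp

theorem rule5 (hd : d < 2) (hg : g < B) (hq : q < Q) (hj : j < k) :
    ruleV δ B Q k (ix B Q k 5 d j q g 0 0) =
      (sc B Q 2 d j q g 0, sc B Q 3 d j q g 0, 2 * k + 2, 2 * k + 2, 2 * k) := by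
  obtain ⟨e1, e2, e3, e4, e5, e6, e7⟩ := dec (B := B) (Q := Q) (k := k) (ty := 5) (d := d) (j := j)
    (q := q) (g := g) (h := 0) (t := 0) (by omega) hd hg (by omega) hq hj
  simp only [ruleV, e1, e2, e3, e4, e5, e6, e7]
  simp

theorem rule6 (hd : d < 2) (hg : g < B) (hg1 : 1 ≤ g) (hq : q < Q) (hj : j < k) :
    ruleV δ B Q k (ix B Q k 6 d j q g 0 0) =
      (sc B Q 3 d j q g 0, sc B Q 3 d j q (g - 1) 0, 2 * k + 1, 2 * j + d, 2 * k + 3) := by
  obtain ⟨e1, e2, e3, e4, e5, e6, e7⟩ := dec (B := B) (Q := Q) (k := k) (ty := 6) (d := d) (j := j)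
    (q := q) (g := g) (h := 0) (t := 0) (by omega) hd hg (by omega) hq hj
  simp only [ruleV, e1, e2, e3, e4, e5, e6, e7]
  simp [hg1]

theorem rule7 (hd : d < 2) (hB : 0 < B) (hq : q < Q) (hj : j < k) :
    ruleV δ B Q k (ix B Q k 7 d j q 0 0 0) =
      (sc B Q 3 d j q 0 0, sc B Q 4 d j q 0 0, 2 * k + 2, 2 * k + 2, 2 * k + 3) := by
  obtain ⟨e1, e2, e3, e4, e5, e6, e7⟩ := dec (B := B) (Q := Q) (k := k) (ty := 7) (d := d) (j := j)
    (q := q) (g := 0) (h := 0) (t := 0) (by omega) hd hB hB hq hj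
  simp only [ruleV, e1, e2, e3, e4, e5, e6, e7]
  simp

theorem rule8 (hd : d < 2) (hh : h + 1 < B) (hq : q < Q) (hj : j < k) :
    ruleV δ B Q k (ix B Q k 8 d j q 0 h 0) =
      (sc B Q 4 d j q 0 h, sc B Q 4 d j q 0 (h + 1), 2 * j + (1 - d), 2 * k + 1, 2 * k + 3) := by
  obtain ⟨e1, e2, e3, e4, e5, e6, e7⟩ := dec (B := B) (Q := Q) (k := k) (ty := 8) (d := d) (j := j)
    (q := q) (g := 0) (h := h) (t := 0) (by omega) hd (by omega) (by omega) hq hj
  simp only [ruleV, e1, e2, e3, e4, e5, e6, e7]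
  simp [hh]

theorem rule9 (hd : d < 2) (hB : 0 < B) (hq : q < Q) (hj : j < k) :
    ruleV δ B Q k (ix B Q k 9 d j q 0 0 0) =
      (sc B Q 4 d j q 0 (B - 1), sc B Q 4 d j q 0 0, 2 * j + (1 - d), 2 * k, 2 * k + 3) := by
  obtain ⟨e1, e2, e3, e4, e5, e6, e7⟩ := dec (B := B) (Q := Q) (k := k) (ty := 9) (d := d) (j := j)
    (q := q) (g := 0) (h := 0) (t := 0) (by omega) hd hB hB hq hj
  simp only [ruleV, e1, e2, e3, e4, e5, e6, e7]
  simp

theorem rule10 (hd : d < 2) (hh : h < B) (hh1 : 1 ≤ h) (hq : q < Q) (hj : j < k) :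
    ruleV δ B Q k (ix B Q k 10 d j q 0 h 0) =
      (sc B Q 4 d j q 0 h, sc B Q 5 d j q 0 h, 2 * k + 2, 2 * k + 2, 2 * j + (1 - d)) := by
  obtain ⟨e1, e2, e3, e4, e5, e6, e7⟩ := dec (B := B) (Q := Q) (k := k) (ty := 10) (d := d) (j := j)
    (q := q) (g := 0) (h := h) (t := 0) (by omega) hd (by omega) hh hq hj
  simp only [ruleV, e1, e2, e3, e4, e5, e6, e7]
  simp [hh1]

theorem rule11a (hB : 0 < B) (hq : q < Q) (hj : j + 1 < k) :
    ruleV δ B Q k (ix B Q k 11 0 j q 0 0 0) =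
      (sc B Q 4 0 j q 0 0, sc B Q 4 0 (j + 1) q 0 0, 2 * k + 2, 2 * k + 2, 2 * j + 1) := by
  obtain ⟨e1, e2, e3, e4, e5, e6, e7⟩ := dec (B := B) (Q := Q) (k := k) (ty := 11) (d := 0) (j := j)
    (q := q) (g := 0) (h := 0) (t := 0) (by omega) (by omega) hB hB hq (by omega)
  simp only [ruleV, e1, e2, e3, e4, e5, e6, e7]
  simp [hj]

theorem rule11b (hB : 0 < B) (hq : q < Q) (hj1 : 1 ≤ j) (hj : j < k) :
    ruleV δ B Q k (ix B Q k 11 1 j q 0 0 0) =
      (sc B Q 4 1 j q 0 0, sc B Q 4 1 (j - 1) q 0 0, 2 * k + 2, 2 * k + 2, 2 * j) := by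
  obtain ⟨e1, e2, e3, e4, e5, e6, e7⟩ := dec (B := B) (Q := Q) (k := k) (ty := 11) (d := 1) (j := j)
    (q := q) (g := 0) (h := 0) (t := 0) (by omega) (by omega) hB hB hq hj
  simp only [ruleV, e1, e2, e3, e4, e5, e6, e7]
  simp [hj1]

theorem rule12 (hd : d < 2) (hh : h < B) (hq : q < Q) (hj : j < k) :
    ruleV δ B Q k (ix B Q k 12 d j q 0 h 0) =
      (sc B Q 5 d j q 0 h, sc B Q 5 d j q 0 h, 2 * k, 2 * j + (1 - d), 2 * k + 3) := by
  obtain ⟨e1, e2, e3, e4, e5, e6, e7⟩ := dec (B := B) (Q := Q) (k := k) (ty := 12) (d := d) (j := j)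
    (q := q) (g := 0) (h := h) (t := 0) (by omega) hd (by omega) hh hq hj
  simp only [ruleV, e1, e2, e3, e4, e5, e6, e7]
  simp

theorem rule13 (hd : d < 2) (hh : h < B) (hq : q < Q) (hj : j < k) :
    ruleV δ B Q k (ix B Q k 13 d j q 0 h 0) =
      (sc B Q 5 d j q 0 h, sc B Q 0 0 j q h 0, 2 * k + 2, 2 * k + 2, 2 * k) := by
  obtain ⟨e1, e2, e3, e4, e5, e6, e7⟩ := dec (B := B) (Q := Q) (k := k) (ty := 13) (d := d) (j := j)
    (q := q) (g := 0) (h := h) (t := 0) (by omega) hd (by omega) hh hq hj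
  simp only [ruleV, e1, e2, e3, e4, e5, e6, e7]
  simp

theorem rule14 (hg : g < B) (hQ : 0 < Q) (hj : j < k) :
    ruleV δ B Q k (ix B Q k 14 0 j 0 g 0 0) =
      (sc B Q 0 0 j 1 g 0, sc B Q 6 0 0 0 0 0, 2 * k + 2, 2 * k + 2, 2 * k + 3) := by
  obtain ⟨e1, e2, e3, e4, e5, e6, e7⟩ := dec (B := B) (Q := Q) (k := k) (ty := 14) (d := 0) (j := j)
    (q := 0) (g := g) (h := 0) (t := 0) (by omega) (by omega) hg (by omega) hQ hj
  simp only [ruleV, e1, e2, e3, e4, e5, e6, e7]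
  simp

end rules

/-! ## Pushing -/

section phases

variable {δ : NTM} {B Q k g0 d j q g : ℕ}

/-- increments of `X` -/
theorem incs (hd : d < 2) (hg : g < B) (hq : q < Q) (hj : j < k) : ∀ (h : ℕ), h < B →
    ∀ {c : ℕ → ℕ}, h ≤ c (2 * k + 1) → c (2 * k + 3) = 0 →
      (tokV δ B Q k g0).Run h (sc B Q 1 d j q g h, c)
        (sc B Q 1 d j q g 0, mv c (2 * k + 1) (2 * k) h) := by
  intro h
  induction h with
  | zero =>
    intro _ c _ _
    rw [mv_zero]
    exact .refl _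
  | succ h ih =>
    intro hh c h1 h2
    have s1 := step_mv (g0 := g0) (ix_lt (m := δ.length) (by omega) hd hg hh hq hj (Nat.zero_le _))
      (rule2 (δ := δ) hd hg hh (by omega) hq hj) (by omega) (c := c) (by omega) h2
    have s2 := ih (by omega) (c := mv c (2 * k + 1) (2 * k) 1) (by rw [mv_x]; omega)
      (by rw [mv_ne _ _ (by omega) (by omega)]; exact h2)
    rw [mv_mv _ (by omega)] at s2
    have := run_trans s1 s2
    rw [Nat.add_comm 1 h] at this
    exact this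

/-- `n` rounds of the multiplication loop -/
def mul (c : ℕ → ℕ) (B k b n : ℕ) : ℕ → ℕ := fun s =>
  if s = b then c s - n else if s = 2 * k then c s + B * n
  else if s = 2 * k + 1 then c s - (B - 1) * n else c s

theorem mults (hd : d < 2) (hg : g < B) (hB : 0 < B) (hq : q < Q) (hj : j < k) : ∀ (n : ℕ),
    ∀ {c : ℕ → ℕ}, n ≤ c (2 * j + d) → (B - 1) * n ≤ c (2 * k + 1) → c (2 * k + 3) = 0 →
      (tokV δ B Q k g0).Run (B * n) (sc B Q 1 d j q g 0, c)
        (sc B Q 1 d j q g 0, mul c B k (2 * j + d) n) := by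
  intro n
  induction n with
  | zero =>
    intro c _ _ _
    have : mul c B k (2 * j + d) 0 = c := by
      funext s; simp [mul]
    rw [this]
    exact .refl _
  | succ n ih =>
    intro c h1 h2 h3
    have h2' : (B - 1) * n + (B - 1) ≤ c (2 * k + 1) := by rw [← Nat.mul_succ]; exact h2
    have s1 := step_mv (g0 := g0) (ix_lt (m := δ.length) (by omega) hd hg hB hq hj (Nat.zero_le _))
      (rule1 (δ := δ) hd hg hq hj) (by omega) (c := c) (by omega) h3
    have s2 := incs (δ := δ) (g0 := g0) hd hg hq hj (B - 1) (by omega)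
      (c := mv c (2 * j + d) (2 * k) 1)
      (by rw [mv_ne _ _ (by omega) (by omega)]; omega)
      (by rw [mv_ne _ _ (by omega) (by omega)]; exact h3)
    have s3 := ih (c := mv (mv c (2 * j + d) (2 * k) 1) (2 * k + 1) (2 * k) (B - 1))
      (by rw [mv_ne _ _ (by omega) (by omega), mv_x]; omega)
      (by rw [mv_x, mv_ne _ _ (by omega) (by omega)]; omega)
      (by rw [mv_ne _ _ (by omega) (by omega), mv_ne _ _ (by omega) (by omega)]; exact h3)
    have e : mul (mv (mv c (2 * j + d) (2 * k) 1) (2 * k + 1) (2 * k) (B - 1)) B k (2 * j + d) n =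
        mul c B k (2 * j + d) (n + 1) := by
      funext s
      simp only [mul, mv]
      have e1 : B * (n + 1) = B * n + B := by ring
      have e2 : (B - 1) * (n + 1) = (B - 1) * n + (B - 1) := by ring
      rw [e1, e2]
      split_ifs <;> omega
    rw [e] at s3
    have := run_trans s1 (run_trans s2 s3)
    have e3 : 1 + ((B - 1) + B * n) = B * (n + 1) := by
      have : B * (n + 1) = B * n + B := by ring
      omega
    rw [e3] at this
    exact this

/-- adding the digit -/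
theorem adds (hd : d < 2) (hq : q < Q) (hj : j < k) : ∀ (g : ℕ), g < B →
    ∀ {c : ℕ → ℕ}, g ≤ c (2 * k + 1) → c (2 * k + 3) = 0 →
      (tokV δ B Q k g0).Run g (sc B Q 3 d j q g 0, c)
        (sc B Q 3 d j q 0 0, mv c (2 * k + 1) (2 * j + d) g) := by
  intro g
  induction g with
  | zero =>
    intro _ c _ _
    rw [mv_zero]
    exact .refl _
  | succ g ih =>
    intro hg c h1 h2
    have s1 := step_mv (g0 := g0) (ix_lt (m := δ.length) (by omega) hd hg (by omega) hq hj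
      (Nat.zero_le _)) (rule6 (δ := δ) hd hg (by omega) hq hj) (by omega) (c := c) (by omega) h2
    have s2 := ih (by omega) (c := mv c (2 * k + 1) (2 * j + d) 1) (by rw [mv_x]; omega)
      (by rw [mv_ne _ _ (by omega) (by omega)]; exact h2)
    rw [mv_mv _ (by omega)] at s2
    have := run_trans s1 s2
    rw [Nat.add_comm 1 g] at this
    exact this

/-- **Pushing a digit** -/
theorem push (hd : d < 2) (hg : g < B) (hq : q < Q) (hj : j < k) {c : ℕ → ℕ} {n : ℕ}
    (hn : c (2 * j + d) = n) (hR : B * n + g ≤ c (2 * k + 1)) (hX : c (2 * k) = 0)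
    (he : c (2 * k + 2) = 1) (hf : c (2 * k + 3) = 0) :
    ∃ c', (tokV δ B Q k g0).Run (B * n + (B * n + (g + 3))) (sc B Q 1 d j q g 0, c)
        (sc B Q 4 d j q 0 0, c') ∧ c' (2 * j + d) = g + B * n ∧
      c' (2 * k + 1) + (B - 1) * n + g = c (2 * k + 1) ∧
      ∀ s, s ≠ 2 * j + d → s ≠ 2 * k + 1 → c' s = c s := by
  have hB : 0 < B := by omega
  have hBn : (B - 1) * n + n = B * n := by
    obtain ⟨b, rfl⟩ := Nat.exists_eq_succ_of_ne_zero hB.ne'
    simp only [Nat.succ_eq_add_one, Nat.add_sub_cancel]; ring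
  have s1 := mults (δ := δ) (g0 := g0) hd hg hB hq hj n (c := c) (by omega) (by omega) hf
  have m1 : mul c B k (2 * j + d) n (2 * j + d) = 0 := by simp [mul, hn]
  have m2 : mul c B k (2 * j + d) n (2 * k) = B * n := by
    have : ¬ (2 * k = 2 * j + d) := by omega
    simp [mul, this, hX]
  have m3 : mul c B k (2 * j + d) n (2 * k + 1) = c (2 * k + 1) - (B - 1) * n := by
    have : ¬ (2 * k + 1 = 2 * j + d) := by omega
    simp [mul, this]
  have m4 : ∀ s, s ≠ 2 * j + d → s ≠ 2 * k → s ≠ 2 * k + 1 → mul c B k (2 * j + d) n s = c s := by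
    intro s a b e
    simp [mul, a, b, e]
  generalize mul c B k (2 * j + d) n = c1 at s1 m1 m2 m3 m4
  have s2 := step_e (g0 := g0) (ix_lt (m := δ.length) (by omega) hd hg hB hq hj (Nat.zero_le _))
      (rule3 (δ := δ) hd hg hq hj) (c := c1) (by rw [m4 _ (by omega) (by omega) (by omega)]; omega)
      m1
  have s3 := loop_mv (g0 := g0) (ix_lt (m := δ.length) (by omega) hd hg hB hq hj (Nat.zero_le _))
      (rule4 (δ := δ) hd hg hq hj) (by omega) (by omega) (by omega) (B * n) (c := c1)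
      (by omega) (by rw [m4 _ (by omega) (by omega) (by omega)]; omega)
  have s4 := step_e (g0 := g0) (ix_lt (m := δ.length) (by omega) hd hg hB hq hj (Nat.zero_le _))
      (rule5 (δ := δ) hd hg hq hj) (c := mv c1 (2 * k) (2 * j + d) (B * n))
      (by rw [mv_ne _ _ (by omega) (by omega), m4 _ (by omega) (by omega) (by omega)]; omega)
      (by rw [mv_x]; omega)
  have s5 := adds (δ := δ) (g0 := g0) hd hq hj g hg (c := mv c1 (2 * k) (2 * j + d) (B * n))
      (by rw [mv_ne _ _ (by omega) (by omega), m3]; omega)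
      (by rw [mv_ne _ _ (by omega) (by omega), m4 _ (by omega) (by omega) (by omega)]; omega)
  have s6 := step_e (g0 := g0) (ix_lt (m := δ.length) (by omega) hd hB hB hq hj (Nat.zero_le _))
      (rule7 (δ := δ) hd hB hq hj)
      (c := mv (mv c1 (2 * k) (2 * j + d) (B * n)) (2 * k + 1) (2 * j + d) g)
      (by rw [mv_ne _ _ (by omega) (by omega), mv_ne _ _ (by omega) (by omega),
        m4 _ (by omega) (by omega) (by omega)]; omega)
      (by rw [mv_ne _ _ (by omega) (by omega), mv_ne _ _ (by omega) (by omega),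
        m4 _ (by omega) (by omega) (by omega)]; omega)
  refine ⟨mv (mv c1 (2 * k) (2 * j + d) (B * n)) (2 * k + 1) (2 * j + d) g, ?_, ?_, ?_, ?_⟩
  · have := run_trans s1 (run_trans s2 (run_trans s3 (run_trans s4 (run_trans s5 s6))))
    have e : B * n + (1 + (B * n + (1 + (g + 1)))) = B * n + (B * n + (g + 3)) := by omega
    rw [e] at this
    exact this
  · rw [mv_y _ _ (by omega), mv_y _ _ (by omega)]; omega
  · rw [mv_x, mv_ne _ _ (by omega) (by omega), m3]; omega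
  · intro s a b
    rw [mv_ne _ _ b a]
    by_cases h : s = 2 * k
    · subst h; rw [mv_x, m2, hX]; omega
    · rw [mv_ne _ _ h a, m4 _ a h b]

/-! ## Popping -/

theorem decs (hd : d < 2) (hq : q < Q) (hj : j < k) (a : ℕ) : ∀ (h : ℕ), h + a < B →
    ∀ {c : ℕ → ℕ}, a ≤ c (2 * j + (1 - d)) → c (2 * k + 3) = 0 →
      (tokV δ B Q k g0).Run a (sc B Q 4 d j q 0 h, c)
        (sc B Q 4 d j q 0 (h + a), mv c (2 * j + (1 - d)) (2 * k + 1) a) := by
  induction a with
  | zero =>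
    intro h _ c _ _
    rw [mv_zero]
    exact .refl _
  | succ a ih =>
    intro h hh c h1 h2
    have s1 := step_mv (g0 := g0) (ix_lt (B := B) (g := 0) (h := h) (t := 0) (m := δ.length)
      (by omega) hd (by omega) (by omega) hq hj
      (Nat.zero_le _)) (rule8 (δ := δ) (h := h) hd (by omega) hq hj) (by omega) (c := c)
      (by omega) h2
    have s2 := ih (h + 1) (by omega) (c := mv c (2 * j + (1 - d)) (2 * k + 1) 1)
      (by rw [mv_x]; omega) (by rw [mv_ne _ _ (by omega) (by omega)]; exact h2)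
    rw [mv_mv _ (by omega)] at s2
    have := run_trans s1 s2
    have e1 : h + 1 + a = h + (a + 1) := by omega
    rw [Nat.add_comm 1 a, e1] at this
    exact this

/-- `n` rounds of the division loop -/
def dv (c : ℕ → ℕ) (B k b n : ℕ) : ℕ → ℕ := fun s =>
  if s = b then c s - B * n else if s = 2 * k then c s + n
  else if s = 2 * k + 1 then c s + (B - 1) * n else c s

theorem divs (hd : d < 2) (hB : 0 < B) (hq : q < Q) (hj : j < k) : ∀ (n : ℕ),
    ∀ {c : ℕ → ℕ}, B * n ≤ c (2 * j + (1 - d)) → c (2 * k + 3) = 0 →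
      (tokV δ B Q k g0).Run (B * n) (sc B Q 4 d j q 0 0, c)
        (sc B Q 4 d j q 0 0, dv c B k (2 * j + (1 - d)) n) := by
  intro n
  induction n with
  | zero =>
    intro c _ _
    have : dv c B k (2 * j + (1 - d)) 0 = c := by
      funext s; simp [dv]
    rw [this]
    exact .refl _
  | succ n ih =>
    intro c h1 h3
    have e1 : B * (n + 1) = B * n + B := by ring
    rw [e1] at h1
    have s1 := decs (δ := δ) (B := B) (g0 := g0) hd hq hj (B - 1) 0 (by omega) (c := c) (by omega) h3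
    rw [Nat.zero_add] at s1
    have s2 := step_mv (g0 := g0) (ix_lt (m := δ.length) (by omega) hd hB hB hq hj (Nat.zero_le _))
      (rule9 (δ := δ) hd hB hq hj) (by omega)
      (c := mv c (2 * j + (1 - d)) (2 * k + 1) (B - 1))
      (by rw [mv_x]; omega) (by rw [mv_ne _ _ (by omega) (by omega)]; exact h3)
    have s3 := ih (c := mv (mv c (2 * j + (1 - d)) (2 * k + 1) (B - 1)) (2 * j + (1 - d)) (2 * k) 1)
      (by rw [mv_x, mv_x]; omega)
      (by rw [mv_ne _ _ (by omega) (by omega), mv_ne _ _ (by omega) (by omega)]; exact h3)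
    have e : dv (mv (mv c (2 * j + (1 - d)) (2 * k + 1) (B - 1)) (2 * j + (1 - d)) (2 * k) 1) B k
        (2 * j + (1 - d)) n = dv c B k (2 * j + (1 - d)) (n + 1) := by
      funext s
      simp only [dv, mv]
      have e2 : (B - 1) * (n + 1) = (B - 1) * n + (B - 1) := by ring
      rw [e1, e2]
      split_ifs <;> omega
    rw [e] at s3
    have := run_trans s1 (run_trans s2 s3)
    have e3 : (B - 1) + (1 + B * n) = B * (n + 1) := by omega
    rw [e3] at this
    exact this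

/-- **Popping a digit** -/
theorem pop (hd : d < 2) {h : ℕ} (hh1 : 1 ≤ h) (hh : h < B) (hq : q < Q) (hj : j < k)
    {c : ℕ → ℕ} {n : ℕ} (hn : c (2 * j + (1 - d)) = h + B * n) (hX : c (2 * k) = 0)
    (he : c (2 * k + 2) = 1) (hf : c (2 * k + 3) = 0) :
    ∃ c', (tokV δ B Q k g0).Run (B * n + (h + (n + 2))) (sc B Q 4 d j q 0 0, c)
        (sc B Q 0 0 j q h 0, c') ∧ c' (2 * j + (1 - d)) = n ∧
      c' (2 * k + 1) = c (2 * k + 1) + (B - 1) * n + h ∧
      ∀ s, s ≠ 2 * j + (1 - d) → s ≠ 2 * k + 1 → c' s = c s := by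
  have hB : 0 < B := by omega
  have s1 := divs (δ := δ) (g0 := g0) hd hB hq hj n (c := c) (by omega) hf
  have m1 : dv c B k (2 * j + (1 - d)) n (2 * j + (1 - d)) = h := by simp [dv, hn]
  have m2 : dv c B k (2 * j + (1 - d)) n (2 * k) = n := by
    have : ¬ (2 * k = 2 * j + (1 - d)) := by omega
    simp [dv, this, hX]
  have m3 : dv c B k (2 * j + (1 - d)) n (2 * k + 1) = c (2 * k + 1) + (B - 1) * n := by
    have : ¬ (2 * k + 1 = 2 * j + (1 - d)) := by omega
    simp [dv, this]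
  have m4 : ∀ s, s ≠ 2 * j + (1 - d) → s ≠ 2 * k → s ≠ 2 * k + 1 →
      dv c B k (2 * j + (1 - d)) n s = c s := by
    intro s a b e
    simp [dv, a, b, e]
  generalize dv c B k (2 * j + (1 - d)) n = c1 at s1 m1 m2 m3 m4
  have s2 := decs (δ := δ) (B := B) (g0 := g0) hd hq hj h 0 (by omega) (c := c1) (by omega)
    (by rw [m4 _ (by omega) (by omega) (by omega)]; omega)
  rw [Nat.zero_add] at s2
  have s3 := step_e (g0 := g0) (ix_lt (m := δ.length) (by omega) hd hB hh hq hj (Nat.zero_le _))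
      (rule10 (δ := δ) hd hh hh1 hq hj) (c := mv c1 (2 * j + (1 - d)) (2 * k + 1) h)
      (by rw [mv_ne _ _ (by omega) (by omega), m4 _ (by omega) (by omega) (by omega)]; omega)
      (by rw [mv_x]; omega)
  have s4 := loop_mv (g0 := g0) (ix_lt (m := δ.length) (by omega) hd hB hh hq hj (Nat.zero_le _))
      (rule12 (δ := δ) hd hh hq hj) (by omega) (by omega) (by omega) n
      (c := mv c1 (2 * j + (1 - d)) (2 * k + 1) h)
      (by rw [mv_ne _ _ (by omega) (by omega)]; omega)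
      (by rw [mv_ne _ _ (by omega) (by omega), m4 _ (by omega) (by omega) (by omega)]; omega)
  have s5 := step_e (g0 := g0) (ix_lt (m := δ.length) (by omega) hd hB hh hq hj (Nat.zero_le _))
      (rule13 (δ := δ) hd hh hq hj)
      (c := mv (mv c1 (2 * j + (1 - d)) (2 * k + 1) h) (2 * k) (2 * j + (1 - d)) n)
      (by rw [mv_ne _ _ (by omega) (by omega), mv_ne _ _ (by omega) (by omega),
        m4 _ (by omega) (by omega) (by omega)]; omega)
      (by rw [mv_x, mv_ne _ _ (by omega) (by omega)]; omega)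
  refine ⟨mv (mv c1 (2 * j + (1 - d)) (2 * k + 1) h) (2 * k) (2 * j + (1 - d)) n, ?_, ?_, ?_, ?_⟩
  · have := run_trans s1 (run_trans s2 (run_trans s3 (run_trans s4 s5)))
    have e : B * n + (h + (1 + (n + 1))) = B * n + (h + (n + 2)) := by omega
    rw [e] at this
    exact this
  · rw [mv_y _ _ (by omega), mv_x]; omega
  · rw [mv_ne _ _ (by omega) (by omega), mv_y _ _ (by omega), m3]
  · intro s a b
    by_cases h : s = 2 * k
    · subst h; rw [mv_x, mv_ne _ _ (by omega) (by omega), m2, hX]; omega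
    · rw [mv_ne _ _ h a, mv_ne _ _ a b, m4 _ a h b]

end phases

/-! ## One step of the Turing machine -/

/-- invariant in main states -/
structure MI (B k W : ℕ) (S : ℕ → ℕ → List ℕ) (c : ℕ → ℕ) : Prop where
  cr : CR B k S c
  X : c (2 * k) = 0
  e : c (2 * k + 2) = 1
  f : c (2 * k + 3) = 0
  w : c (2 * k + 1) + ∑ s ∈ Finset.range (2 * k), c s = W

theorem sum_change {n : ℕ} {c c' : ℕ → ℕ} {b : ℕ} (hb : b < n)
    (h : ∀ s < n, s ≠ b → c' s = c s) :
    (∑ s ∈ Finset.range n, c' s) + c b = (∑ s ∈ Finset.range n, c s) + c' b := by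
  have hm : b ∈ Finset.range n := Finset.mem_range.2 hb
  rw [← Finset.add_sum_erase _ c' hm, ← Finset.add_sum_erase _ c hm]
  have : ∑ s ∈ (Finset.range n).erase b, c' s = ∑ s ∈ (Finset.range n).erase b, c s := by
    refine Finset.sum_congr rfl fun s hs => ?_
    obtain ⟨h1, h2⟩ := Finset.mem_erase.1 hs
    exact h s (Finset.mem_range.1 h2) h1
  omega

theorem cr_upd {B k : ℕ} {S : ℕ → ℕ → List ℕ} {c c' : ℕ → ℕ} (h : CR B k S c) {s i : ℕ}
    (hs : s < 2) (hi : i < k) {l : List ℕ} (h1 : c' (2 * i + s) = encL B l)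
    (h2 : ∀ s', s' ≠ 2 * i + s → s' ≠ 2 * k + 1 → c' s' = c s') : CR B k (upd S s i l) c' := by
  intro s' hs' i' hi'
  by_cases h3 : s' = s ∧ i' = i
  · obtain ⟨rfl, rfl⟩ := h3
    simp only [upd, Function.update_self]
    exact h1
  · have e : upd S s i l s' i' = S s' i' := by
      unfold upd
      by_cases h4 : s' = s
      · subst h4
        have h5 : i' ≠ i := fun h => h3 ⟨rfl, h⟩
        rw [Function.update_self, Function.update_of_ne h5]
      · rw [Function.update_of_ne h4]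
    rw [e, h2 _ (by omega) (by omega)]
    exact h s' hs' i' hi'

theorem upd_self (S : ℕ → ℕ → List ℕ) (s i : ℕ) (l : List ℕ) : upd S s i l s i = l := by
  simp [upd]

theorem BP {B ℓ : ℕ} (hB : 4 ≤ B) : B ≤ B ^ (ℓ + 1) ∧ B ^ ℓ ≤ B ^ (ℓ + 1) := by
  constructor
  · calc B = B ^ 1 := (pow_one B).symm
      _ ≤ B ^ (ℓ + 1) := Nat.pow_le_pow_right (by omega) (by omega)
  · exact Nat.pow_le_pow_right (by omega) (by omega)

section main

variable {δ : NTM} {B Q k ℓ g0 W : ℕ}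

theorem enc_small (hB : 4 ≤ B) {C : Conf} {j : ℕ} {S : ℕ → ℕ → List ℕ} (h : Rep k ℓ C j S)
    (hC : ∀ i, C.tape i + 1 < B) {s i : ℕ} (hs : s < 2) (hi : i < k) :
    encL B (S s i) < B ^ ℓ := by
  have h1 := encL_lt (rep_good h hC s hs i hi)
  have h2 := h.len i hi
  have h3 : (S s i).length ≤ ℓ := by
    have : s = 0 ∨ s = 1 := by omega
    rcases this with rfl | rfl <;> omega
  exact h1.trans_le (Nat.pow_le_pow_right (by omega) h3)

theorem res_large (hB : 4 ≤ B) {C : Conf} {j : ℕ} {S : ℕ → ℕ → List ℕ} (h : Rep k ℓ C j S)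
    (hC : ∀ i, C.tape i + 1 < B) {c : ℕ → ℕ} (hm : MI B k W S c)
    (hW : (2 * k + 3) * B ^ (ℓ + 1) ≤ W) : 3 * B ^ (ℓ + 1) ≤ c (2 * k + 1) := by
  have h1 : ∑ s ∈ Finset.range (2 * k), c s ≤ 2 * k * B ^ (ℓ + 1) := by
    have : ∀ s ∈ Finset.range (2 * k), c s ≤ B ^ (ℓ + 1) := by
      intro s hs
      have hs' := Finset.mem_range.1 hs
      have e : s = 2 * (s / 2) + s % 2 := by omega
      rw [e, hm.cr (s % 2) (by omega) (s / 2) (by omega)]
      have := enc_small hB h hC (s := s % 2) (i := s / 2) (by omega) (by omega)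
      have := (BP (ℓ := ℓ) hB).2
      omega
    calc ∑ s ∈ Finset.range (2 * k), c s ≤ ∑ _s ∈ Finset.range (2 * k), B ^ (ℓ + 1) :=
          Finset.sum_le_sum this
      _ = 2 * k * B ^ (ℓ + 1) := by simp
  have h2 := hm.w
  have h3 : (2 * k + 3) * B ^ (ℓ + 1) = 2 * k * B ^ (ℓ + 1) + 3 * B ^ (ℓ + 1) := by ring
  omega

/-- popping, with the representation -/
theorem pop_phase (hB : BOk δ B Q) (d : ℕ) (hd : d < 2) {i q : ℕ} (hi : i < k) (hq : q < Q)
    {S1 : ℕ → ℕ → List ℕ} {c1 : ℕ → ℕ} (hm : MI B k W S1 c1) {g' : ℕ} {l : List ℕ}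
    (hS : S1 (1 - d) i = g' :: l) (hg : g' + 1 < B) :
    ∃ c', (tokV δ B Q k g0).Run (B * encL B l + (g' + 1 + (encL B l + 2)))
      (sc B Q 4 d i q 0 0, c1) (sc B Q 0 0 i q (g' + 1) 0, c') ∧
      MI B k W (upd S1 (1 - d) i l) c' := by
  have h1 : c1 (2 * i + (1 - d)) = (g' + 1) + B * encL B l := by
    rw [hm.cr (1 - d) (by omega) i hi, hS]; rfl
  obtain ⟨c', r, e1, e2, e3⟩ := pop (δ := δ) (g0 := g0) hd (by omega) hg hq hi h1 hm.X hm.e hm.f
  have hB4 := hB.B4
  have hBn : (B - 1) * encL B l + encL B l = B * encL B l := by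
    obtain ⟨b, rfl⟩ := Nat.exists_eq_succ_of_ne_zero (show B ≠ 0 by omega)
    simp only [Nat.succ_eq_add_one, Nat.add_sub_cancel]; ring
  refine ⟨c', r, ?_, ?_, ?_, ?_, ?_⟩
  · exact cr_upd hm.cr (by omega) hi e1 e3
  · rw [e3 _ (by omega) (by omega)]; exact hm.X
  · rw [e3 _ (by omega) (by omega)]; exact hm.e
  · rw [e3 _ (by omega) (by omega)]; exact hm.f
  · have h2 := sum_change (n := 2 * k) (c := c1) (c' := c') (b := 2 * i + (1 - d)) (by omega)
      (fun s hs hne => e3 s hne (by omega))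
    have h3 := hm.w
    omega

theorem conf_eq {C' : Conf} {p : ℕ} {tp : ℕ → ℕ} (h1 : C'.pos = p) (h2 : C'.tape = tp) :
    C' = ⟨C'.q, p, tp⟩ := by
  cases C'
  simp only at h1 h2
  subst h1 h2
  rfl

theorem sim_step (hB : BOk δ B Q) (hℓ : 0 < ℓ) {C C' : Conf} {j : ℕ} {S : ℕ → ℕ → List ℕ}
    {c : ℕ → ℕ} (hrep : Rep k ℓ C j S) (hm : MI B k W S c)
    (hW : (2 * k + 3) * B ^ (ℓ + 1) ≤ W) (hgood : ∀ i, C.tape i + 1 < B)
    (hstep : NStep δ C C') (hpos : C'.pos < k * ℓ) :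
    ∃ n ≤ 20 * B ^ (ℓ + 1), ∃ j' S' c', (tokV δ B Q k g0).Run n
      (sc B Q 0 0 j C.q (C.tape C.pos + 1) 0, c)
      (sc B Q 0 0 j' C'.q (C'.tape C'.pos + 1) 0, c') ∧ Rep k ℓ C' j' S' ∧ MI B k W S' c' ∧
      (∀ i, C'.tape i + 1 < B) := by
  obtain ⟨g, right, hδ, htape, hp⟩ := hstep
  have hB4 := hB.B4
  obtain ⟨hq1, hq2⟩ := hB.st _ hδ
  obtain ⟨hg1, hg2⟩ := hB.sy _ hδ
  simp only at hq1 hq2 hg1 hg2
  obtain ⟨t, ht⟩ := List.mem_iff_getElem?.1 hδ
  have htl : t ≤ δ.length := by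
    by_contra hcon
    rw [List.getElem?_eq_none (by omega)] at ht
    cases ht
  have hj := hrep.hj
  have hgood' : ∀ i, C'.tape i + 1 < B := by
    intro i
    rw [htape]
    by_cases h : i = C.pos
    · subst h; rw [Function.update_self]; exact hg2
    · rw [Function.update_of_ne h]; exact hgood i
  obtain ⟨d, hd⟩ : ∃ d, d = if right then 0 else 1 := ⟨_, rfl⟩
  have hd2 : d < 2 := by rw [hd]; split_ifs <;> omega
  -- first step
  have s0 := step_e (g0 := g0) (ix_lt (B := B) (Q := Q) (k := k) (ty := 0) (d := 0) (j := j)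
    (q := 0) (g := 0) (h := 0) (by omega) (by omega) (by omega) (by omega) (by omega) hj htl)
    (rule0 ht (by omega) (by omega) hj) (c := c) (by rw [hm.e]; omega) hm.f
  rw [← hd] at s0
  -- pushing
  have hn : c (2 * j + d) = encL B (S d j) := hm.cr d hd2 j hj
  have hsm := enc_small hB4 hrep hgood (s := d) (i := j) hd2 hj
  have hres := res_large hB4 hrep hgood hm hW
  obtain ⟨hP1, hP2⟩ := BP (ℓ := ℓ) hB4
  have hPB : B * encL B (S d j) ≤ B ^ (ℓ + 1) := by
    rw [pow_succ, mul_comm]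
    exact Nat.mul_le_mul_right _ hsm.le
  obtain ⟨c1, r1, e1, e2, e3⟩ := push (δ := δ) (g0 := g0) (g := g + 1) hd2 hg2 hq2 hj hn
    (by omega) hm.X hm.e hm.f
  have hBn : (B - 1) * encL B (S d j) + encL B (S d j) = B * encL B (S d j) := by
    obtain ⟨b, rfl⟩ := Nat.exists_eq_succ_of_ne_zero (show B ≠ 0 by omega)
    simp only [Nat.succ_eq_add_one, Nat.add_sub_cancel]; ring
  have hm1 : MI B k W (upd S d j (g :: S d j)) c1 := by
    refine ⟨cr_upd hm.cr hd2 hj e1 e3, ?_, ?_, ?_, ?_⟩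
    · rw [e3 _ (by omega) (by omega)]; exact hm.X
    · rw [e3 _ (by omega) (by omega)]; exact hm.e
    · rw [e3 _ (by omega) (by omega)]; exact hm.f
    · have h2 := sum_change (n := 2 * k) (c := c) (c' := c1) (b := 2 * j + d) (by omega)
        (fun s hs hne => e3 s hne (by omega))
      have h3 := hm.w
      omega
  have hmid := mid_of_rep hrep d g hd2
  generalize upd S d j (g :: S d j) = S1 at hm1 hmid
  -- popping
  cases right with
  | true =>
    simp only [if_true] at hd hp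
    subst hd
    have key : ∃ i, i < k ∧ Mid k ℓ C 0 g i S1 ∧ S1 1 i ≠ [] ∧ ∃ n ≤ 1,
        (tokV δ B Q k g0).Run n (sc B Q 4 0 j C'.q 0 0, c1) (sc B Q 4 0 i C'.q 0 0, c1) := by
      by_cases hS : S1 1 j = []
      · obtain ⟨a1, a2⟩ := mid_ahead0 hmid hℓ (by omega) hS
        have s2 := step_e (g0 := g0) (ix_lt (B := B) (Q := Q) (k := k) (m := δ.length) (by omega)
          (by omega) (by omega) (by omega) hq2 hj (Nat.zero_le _))
          (rule11a (δ := δ) (by omega) hq2 a1) (c := c1) (by rw [hm1.e]; omega)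
          (by rw [hm1.cr 1 (by omega) j hj, hS]; rfl)
        exact ⟨j + 1, a1, mid_next0 hmid hS a1, a2, 1, le_rfl, s2⟩
      · exact ⟨j, hj, hmid, hS, 0, Nat.zero_le _, .refl _⟩
    obtain ⟨i, hi, hmi, hne, n2, hn2, r2⟩ := key
    obtain ⟨g', l, hS⟩ : ∃ g' l, S1 1 i = g' :: l := by
      cases h : S1 1 i with
      | nil => exact absurd h hne
      | cons a b => exact ⟨a, b, rfl⟩
    obtain ⟨f1, f2⟩ := rep_of_mid0 hmi g' l hS C'.q
    have hC' : C' = ⟨C'.q, C.pos + 1, Function.update C.tape C.pos g⟩ := conf_eq hp htape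
    rw [← hC'] at f2
    have hg' : g' + 1 < B := by rw [← f1]; exact hgood _
    obtain ⟨c2, r3, hm2⟩ := pop_phase (g0 := g0) hB 0 (by omega) hi hq2 hm1 (l := l) hS hg'
    have ht' : C'.tape C'.pos = g' := by
      rw [hp, htape, Function.update_of_ne (by omega)]; exact f1
    have hl := enc_small hB4 f2 hgood' (s := 1) (i := i) (by omega) hi
    rw [upd_self] at hl
    have hPl : B * encL B l ≤ B ^ (ℓ + 1) := by
      rw [pow_succ, mul_comm]
      exact Nat.mul_le_mul_right _ hl.le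
    refine ⟨_, ?_, i, _, c2, run_trans s0 (run_trans r1 (run_trans r2 (by rw [ht']; exact r3))),
      f2, hm2, hgood'⟩
    omega
  | false =>
    simp only [Bool.false_eq_true, if_false] at hd hp
    subst hd
    have key : ∃ i, i < k ∧ Mid k ℓ C 1 g i S1 ∧ S1 0 i ≠ [] ∧ ∃ n ≤ 1,
        (tokV δ B Q k g0).Run n (sc B Q 4 1 j C'.q 0 0, c1) (sc B Q 4 1 i C'.q 0 0, c1) := by
      by_cases hS : S1 0 j = []
      · obtain ⟨a1, a2⟩ := mid_ahead1 hmid hℓ (by omega) hS
        have s2 := step_e (g0 := g0) (ix_lt (B := B) (Q := Q) (k := k) (m := δ.length) (by omega)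
          (by omega) (by omega) (by omega) hq2 hj (Nat.zero_le _))
          (rule11b (δ := δ) (by omega) hq2 a1 hj) (c := c1) (by rw [hm1.e]; omega)
          (by
            have := hm1.cr 0 (by omega) j hj
            rw [hS] at this
            simpa [encL] using this)
        exact ⟨j - 1, by omega, mid_next1 hmid hS a1, a2, 1, le_rfl, s2⟩
      · exact ⟨j, hj, hmid, hS, 0, Nat.zero_le _, .refl _⟩
    obtain ⟨i, hi, hmi, hne, n2, hn2, r2⟩ := key
    obtain ⟨g', l, hS⟩ : ∃ g' l, S1 0 i = g' :: l := by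
      cases h : S1 0 i with
      | nil => exact absurd h hne
      | cons a b => exact ⟨a, b, rfl⟩
    obtain ⟨p, f0, f1, f2⟩ := rep_of_mid1 hmi g' l hS C'.q
    have hC' : C' = ⟨C'.q, p, Function.update C.tape C.pos g⟩ := conf_eq (by omega) htape
    rw [← hC'] at f2
    have hg' : g' + 1 < B := by rw [← f1]; exact hgood _
    obtain ⟨c2, r3, hm2⟩ := pop_phase (g0 := g0) hB 1 (by omega) hi hq2 hm1 (l := l) hS hg'
    have ht' : C'.tape C'.pos = g' := by
      have : C'.pos = p := by omega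
      rw [this, htape, Function.update_of_ne (by omega)]; exact f1
    have hl := enc_small hB4 f2 hgood' (s := 0) (i := i) (by omega) hi
    rw [upd_self] at hl
    have hPl : B * encL B l ≤ B ^ (ℓ + 1) := by
      rw [pow_succ, mul_comm]
      exact Nat.mul_le_mul_right _ hl.le
    refine ⟨_, ?_, i, _, c2, run_trans s0 (run_trans r1 (run_trans r2 (by rw [ht']; exact r3))),
      f2, hm2, hgood'⟩
    omega

theorem nrun_pos {Sb n : ℕ} {C C' : Conf} (h : NRun δ Sb n C C') : C.pos < Sb := by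
  cases h with
  | refl _ h => exact h
  | step _ _ _ _ h _ _ => exact h

theorem sim_run (hB : BOk δ B Q) (hℓ : 0 < ℓ) (hW : (2 * k + 3) * B ^ (ℓ + 1) ≤ W)
    {Sb n : ℕ} (hSb : Sb ≤ k * ℓ) {C C'' : Conf} (h : NRun δ Sb n C C'') :
    ∀ {j : ℕ} {S : ℕ → ℕ → List ℕ} {c : ℕ → ℕ}, Rep k ℓ C j S → MI B k W S c →
      (∀ i, C.tape i + 1 < B) →
    ∃ m ≤ 20 * B ^ (ℓ + 1) * n, ∃ j' S' c', (tokV δ B Q k g0).Run m
      (sc B Q 0 0 j C.q (C.tape C.pos + 1) 0, c)
      (sc B Q 0 0 j' C''.q (C''.tape C''.pos + 1) 0, c') ∧ Rep k ℓ C'' j' S' ∧ MI B k W S' c' ∧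
      (∀ i, C''.tape i + 1 < B) := by
  induction h with
  | refl C h =>
    intro j S c h1 h2 h3
    exact ⟨0, Nat.zero_le _, j, S, c, .refl _, h1, h2, h3⟩
  | step n C C' C'' h h1 h2 ih =>
    intro j S c g1 g2 g3
    have hp := nrun_pos h2
    obtain ⟨m1, hm1, j1, S1, c1, r1, a1, a2, a3⟩ := sim_step (g0 := g0) hB hℓ g1 g2 hW g3 h1
      (by omega)
    obtain ⟨m2, hm2, j2, S2, c2, r2, b1, b2, b3⟩ := ih a1 a2 a3
    refine ⟨m1 + m2, ?_, j2, S2, c2, run_trans r1 r2, b1, b2, b3⟩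
    have : 20 * B ^ (ℓ + 1) * (n + 1) = 20 * B ^ (ℓ + 1) * n + 20 * B ^ (ℓ + 1) := by ring
    omega

end main

end V2

open V2 in
theorem tokV_yes (δ : NTM) (B Q k ℓ R0 S t : ℕ) (hB : BOk δ B Q) (hk : 0 < k) (hℓ : 0 < ℓ)
    (hS : S ≤ k * ℓ) (hR : (2 * k + 3) * B ^ (ℓ + 1) ≤ R0) (x : List Bool)
    (h : AcceptsIn δ x S t) :
    ∃ n ≤ 20 * B ^ (ℓ + 1) * (t + 1), ∃ C, (tokV δ B Q k (tape0 x 0)).Run n
      ((tokV δ B Q k (tape0 x 0)).p0, c0V B k ℓ R0 (tape0 x))
      ((tokV δ B Q k (tape0 x 0)).acc, C) := by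
  obtain ⟨n, hn, C, hrun, hC⟩ := h
  have hB4 := hB.B4
  have hQ2 := hB.Q2
  have hgood : ∀ i, tape0 x i + 1 < B := by
    intro i
    unfold tape0
    split_ifs
    · cases x.getD i false <;> simp <;> omega
    · omega
  have hm : MI B k (R0 + ∑ s ∈ Finset.range (2 * k), c0V B k ℓ R0 (tape0 x) s)
      (S0 ℓ (tape0 x)) (c0V B k ℓ R0 (tape0 x)) := by
    refine ⟨CR_start B k ℓ R0 _, ?_, ?_, ?_, ?_⟩
    · have e1 : ¬ (2 * k < 2 * k) := by omega
      have e2 : ¬ (2 * k = 2 * k + 1) := by omega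
      have e3 : ¬ (2 * k = 2 * k + 2) := by omega
      simp only [c0V, e1, e2, e3, if_false]
    · have e1 : ¬ (2 * k + 2 < 2 * k) := by omega
      have e2 : ¬ (2 * k + 2 = 2 * k + 1) := by omega
      simp only [c0V, e1, e2, if_false, if_true]
    · have e1 : ¬ (2 * k + 3 < 2 * k) := by omega
      have e2 : ¬ (2 * k + 3 = 2 * k + 1) := by omega
      have e3 : ¬ (2 * k + 3 = 2 * k + 2) := by omega
      simp only [c0V, e1, e2, e3, if_false]
    · have e1 : ¬ (2 * k + 1 < 2 * k) := by omega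
      have e2 : c0V B k ℓ R0 (tape0 x) (2 * k + 1) = R0 := by
        simp only [c0V, e1, if_false, if_true]
      rw [e2]
  obtain ⟨m, hm1, j', S', c', r, a1, a2, a3⟩ := sim_run (g0 := tape0 x 0) hB hℓ
    (hR.trans (Nat.le_add_right _ _)) hS hrun (rep_start hk hℓ x) hm hgood
  rw [hC] at r
  have s := step_e (g0 := tape0 x 0) (ix_lt (B := B) (Q := Q) (k := k) (m := δ.length) (by omega)
    (by omega) (a3 C.pos) (by omega) (by omega) a1.hj (Nat.zero_le _))
    (rule14 (δ := δ) (a3 C.pos) (by omega) a1.hj) (c := c') (by rw [a2.e]; omega) a2.f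
  refine ⟨m + 1, ?_, c', run_trans r s⟩
  have h1 : 20 * B ^ (ℓ + 1) * (t + 1) = 20 * B ^ (ℓ + 1) * t + 20 * B ^ (ℓ + 1) := by ring
  have h2 : 20 * B ^ (ℓ + 1) * n ≤ 20 * B ^ (ℓ + 1) * t := Nat.mul_le_mul_left _ hn
  have h3 := (BP (ℓ := ℓ) hB4).1
  omega

end Pool.Agent.helper66.JS
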